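import Mathlib

set_option autoImplicit false

/-!
# The inequality for line subbundles and a point of private prime order

Pure arithmetic of the exponents.
-/

namespace Pool.Agent.Helper84.PC

open Finset

variable {ι : Type*} [Fintype ι] [DecidableEq ι] {n : ℕ}

/-- The inequality for line subbundles, for all conjugates. -/
def Ineq (e : ι → Fin n → ℚ) (N : ℕ) : Prop :=
  ∀ a : ℤ, IsCoprime a (N : ℤ) → ∀ (β : ι → ℚ) (s : ℤ), ∑ x, β x = s →
    (n : ℚ) ≤ ∑ x, ∑ l, Int.fract ((a : ℚ) * e x l - β x)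

/-- The number of the entries congruent to the `k`-th one modulo the integers. -/
def mult (f : Fin n → ℚ) (k : Fin n) : ℕ := (univ.filter fun l => (f l - f k).den = 1).card

lemma exists_lift {q N : ℕ} (hN : 0 < N) (hqN : q ∣ N) (u : ℤ) (hu : IsCoprime u (q : ℤ)) :
    ∃ a : ℤ, IsCoprime a (N : ℤ) ∧ (q : ℤ) ∣ a - u := by
  have : NeZero N := ⟨hN.ne'⟩
  have : NeZero q := ⟨(Nat.pos_of_dvd_of_pos hqN hN).ne'⟩
  obtain ⟨w, hw⟩ := (ZMod.coe_int_isUnit_iff_isCoprime u q).2 hu.symm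
  obtain ⟨v, hv⟩ := ZMod.unitsMap_surjective hqN w
  set a : ℤ := ((v : ZMod N).val : ℤ) with ha
  have haN : ((a : ℤ) : ZMod N) = v := by rw [ha]; simp
  refine ⟨a, ?_, ?_⟩
  · refine ((ZMod.coe_int_isUnit_iff_isCoprime a N).1 ?_).symm
    rw [haN]
    exact v.isUnit
  · have hau : ((a : ℤ) : ZMod q) = ((u : ℤ) : ZMod q) := by
      rw [← hw, ← hv, ZMod.unitsMap_def, Units.coe_map]
      rw [← haN]
      simp
    have h := (ZMod.intCast_eq_intCast_iff_dvd_sub u a q).1 hau.symm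
    exact h

lemma fract_congr {x y : ℚ} (h : ∃ w : ℤ, x - y = w) : Int.fract x = Int.fract y := by
  obtain ⟨w, hw⟩ := h
  have : x = y + w := by linarith
  rw [this, Int.fract_add_intCast]

lemma den_one_of {x : ℚ} (h : ∃ w : ℤ, x = w) : x.den = 1 := by
  obtain ⟨w, rfl⟩ := h
  exact Rat.den_intCast w

lemma int_of_den {x : ℚ} (h : x.den = 1) : ∃ w : ℤ, x = w :=
  ⟨x.num, (Rat.coe_int_num_of_den_eq_one h).symm⟩

/-- if `a` and `a'` agree modulo `M` and `M x` is an integer, then `a x` and `a' x` agree modulo one -/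
lemma mul_congr {M : ℕ} {a a' : ℤ} (h : (M : ℤ) ∣ a - a') {x : ℚ} (hx : ∃ w : ℤ, (M : ℚ) * x = w) :
    ∃ w : ℤ, (a : ℚ) * x - a' * x = w := by
  obtain ⟨c, hc⟩ := h
  obtain ⟨w, hw⟩ := hx
  refine ⟨c * w, ?_⟩
  have h1 : (a : ℚ) - a' = M * c := by exact_mod_cast hc
  push_cast
  rw [← sub_mul, h1, mul_assoc, mul_comm (c : ℚ), ← mul_assoc, hw]
  ring

/-- The inequality with the base points at the exponents `κ x`, `x ≠ z`. -/
lemma Ineq.cut {e : ι → Fin n → ℚ} {N : ℕ} (G : Ineq e N) (z : ι) (κ : ι → Fin n) {a : ℤ}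
    (ha : IsCoprime a (N : ℤ)) :
    (n : ℚ) ≤ ∑ x ∈ univ.erase z, ∑ l, Int.fract ((a : ℚ) * (e x l - e x (κ x))) +
      ∑ l, Int.fract ((a : ℚ) * (e z l + ∑ x ∈ univ.erase z, e x (κ x))) := by
  have h := G a ha (fun x => if x = z then -((a : ℚ) * ∑ x ∈ univ.erase z, e x (κ x)) else a * e x (κ x))
    0 (by
      rw [← add_sum_erase univ _ (mem_univ z), if_pos rfl, mul_sum]
      rw [sum_congr rfl fun x hx => if_neg (ne_of_mem_erase hx)]
      simp)
  rw [← add_sum_erase univ _ (mem_univ z)] at h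
  simp only [if_true] at h
  rw [add_comm] at h
  refine h.trans (le_of_eq ?_)
  congr 1
  · refine sum_congr rfl fun x hx => sum_congr rfl fun l _ => ?_
    rw [if_neg (ne_of_mem_erase hx), mul_sub]
  · refine sum_congr rfl fun l _ => ?_
    congr 1
    ring

/-- a bound for the fractional parts of opposite shifts -/
lemma two_fract {p : ℕ} (hp : 3 ≤ p) (hodd : Odd p) (η : ℚ) (h0 : 0 ≤ η) (h1 : η < 1) :
    ∃ t : ℤ, IsCoprime t (p : ℤ) ∧
      Int.fract ((t : ℚ) / p + η) + Int.fract (-((t : ℚ) / p) + η) ≤ 1 + 2 / p := by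
  have hp0 : (0 : ℚ) < p := by exact_mod_cast (by omega : 0 < p)
  have hp3 : (3 : ℚ) ≤ p := by exact_mod_cast hp
  have hpp : (1 : ℚ) / p ≤ 1 / 3 := by
    rw [div_le_div_iff₀ hp0 (by norm_num)]; linarith
  have h2p : (2 : ℚ) / p = 2 * (1 / p) := by ring
  have hpos : (0 : ℚ) < 1 / p := by positivity
  rcases lt_or_ge η (1 / 2) with hη | hη
  · refine ⟨1, isCoprime_one_left, ?_⟩
    push_cast
    have e1 : Int.fract ((1 : ℚ) / p + η) = 1 / p + η := by
      rw [Int.fract_eq_self]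
      constructor <;> linarith
    rw [e1]
    rcases lt_or_ge η (1 / p) with h | h
    · have e2 : Int.fract (-((1 : ℚ) / p) + η) = -((1 : ℚ) / p) + η + 1 := by
        rw [← Int.fract_add_one, Int.fract_eq_self]
        constructor <;> linarith
      rw [e2, h2p]
      linarith
    · have e2 : Int.fract (-((1 : ℚ) / p) + η) = -((1 : ℚ) / p) + η := by
        rw [Int.fract_eq_self]
        constructor <;> linarith
      rw [e2, h2p]
      linarith
  · obtain ⟨c, hc⟩ := hodd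
    have hcp : (p : ℚ) = 2 * c + 1 := by exact_mod_cast hc
    have hc1 : (1 : ℚ) ≤ c := by
      have : 1 ≤ c := by omega
      exact_mod_cast this
    refine ⟨c, ⟨-2, 1, by rw [hc]; push_cast; ring⟩, ?_⟩
    have e0 : ((c : ℤ) : ℚ) / p = 1 / 2 - 1 / 2 * (1 / p) := by
      rw [hcp]
      field_simp
      push_cast
      ring
    rw [e0]
    have e2 : Int.fract (-(1 / 2 - 1 / 2 * ((1 : ℚ) / p)) + η) = -(1 / 2 - 1 / 2 * ((1 : ℚ) / p)) + η := by
      rw [Int.fract_eq_self]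
      constructor <;> linarith
    rw [e2]
    rcases lt_or_ge (1 / 2 - 1 / 2 * ((1 : ℚ) / p) + η) 1 with h | h
    · have e1 : Int.fract (1 / 2 - 1 / 2 * ((1 : ℚ) / p) + η) = 1 / 2 - 1 / 2 * ((1 : ℚ) / p) + η := by
        rw [Int.fract_eq_self]
        constructor <;> linarith
      rw [e1, h2p]
      linarith
    · have e1 : Int.fract (1 / 2 - 1 / 2 * ((1 : ℚ) / p) + η) = 1 / 2 - 1 / 2 * ((1 : ℚ) / p) + η - 1 := by
        rw [← Int.fract_sub_one, Int.fract_eq_self]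
        constructor <;> linarith
      rw [e1, h2p]
      linarith

lemma fract_add_le' (x y : ℚ) : Int.fract (x + y) ≤ Int.fract x + Int.fract y := Int.fract_add_le x y

lemma fract_add_int {x y : ℚ} (h : ∃ w : ℤ, x + y = w) : Int.fract x + Int.fract y ≤ 1 := by
  obtain ⟨w, hw⟩ := h
  have : y = -x + w := by linarith
  rw [this, Int.fract_add_intCast]
  by_cases hx : Int.fract x = 0
  · have : Int.fract (-x) = 0 := Int.fract_neg_eq_zero.2 hx
    rw [hx, this]; norm_num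
  · rw [Int.fract_neg hx]; linarith

/-- **The main inequality.** -/
theorem core {e : ι → Fin n → ℚ} {N : ℕ} (hN : 0 < N) (hNe : ∀ x l, ∃ w : ℤ, (N : ℚ) * e x l = w)
    {F : ℤ} (hF : ∑ x, ∑ l, e x l = F) (G : Ineq e N) (z : ι) {p : ℕ} (hp : p.Prime) (hn : 2 ≤ n)
    (hpn : n < p) (hz : ∀ l l', ∃ w : ℤ, (p : ℚ) * (e z l - e z l') = w) {k₁ k₂ : Fin n}
    (hk : (e z k₁ - e z k₂).den ≠ 1) {μ : ℕ} (hμ1 : μ ≤ mult (e z) k₁) (hμ2 : μ ≤ mult (e z) k₂)
    {M : ℕ} (hM0 : 0 < M) (hpM : ¬ p ∣ M)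
    (hMd : ∀ x, x ≠ z → ∀ l l', ∃ w : ℤ, (M : ℚ) * (e x l - e x l') = w) (κ : ι → Fin n) (a : ℤ)
    (ha : IsCoprime a (M : ℤ)) :
    (μ : ℚ) / 2 ≤ ∑ x ∈ univ.erase z, ∑ l, Int.fract ((a : ℚ) * (e x l - e x (κ x))) + n / p := by
  classical
  have hp0 : (0 : ℚ) < p := by exact_mod_cast hp.pos
  have hp3 : 3 ≤ p := by omega
  have hodd : Odd p := hp.odd_of_ne_two (by omega)
  -- the prime to `p` part of `N`
  obtain ⟨v, N', hpN', hNN⟩ := Nat.exists_eq_pow_mul_and_not_dvd hN.ne' p hp.ne_one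
  have hN'0 : 0 < N' := by
    rcases Nat.eq_zero_or_pos N' with h | h
    · rw [h, mul_zero] at hNN; omega
    · exact h
  set E : ℚ := ∑ x ∈ univ.erase z, e x (κ x) with hE
  set f : Fin n → ℚ := fun l => e z l + E with hf
  have hfd : ∀ l l', f l - f l' = e z l - e z l' := fun l l' => by simp [hf]
  -- `N f` and `p M n f` are integers
  have hNf : ∀ l, ∃ w : ℤ, (N : ℚ) * f l = w := by
    intro l
    choose w hw using hNe
    refine ⟨w z l + ∑ x ∈ univ.erase z, w x (κ x), ?_⟩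
    rw [hf]
    push_cast
    rw [mul_add, hw, hE, mul_sum, sum_congr rfl fun x _ => hw x (κ x)]
  have hpMn : ∀ l, ∃ w : ℤ, ((p * (M * n) : ℕ) : ℚ) * f l = w := by
    intro l
    have h1 : ∀ x ∈ univ.erase z, ∀ l', ∃ w : ℤ, (M : ℚ) * (e x (κ x) - e x l') = w :=
      fun x hx l' => hMd x (ne_of_mem_erase hx) _ _
    have h2 : (n : ℚ) * f l = F + ∑ l', (e z l - e z l') +
        ∑ x ∈ univ.erase z, ∑ l', (e x (κ x) - e x l') := by
      have h3 : ∑ x ∈ univ.erase z, ∑ l', (e x (κ x) - e x l') =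
          n * E - ∑ x ∈ univ.erase z, ∑ l', e x l' := by
        simp only [sum_sub_distrib, sum_const, card_univ, Fintype.card_fin, nsmul_eq_mul]
        rw [hE, mul_sum]
      have h4 : (F : ℚ) = ∑ l', e z l' + ∑ x ∈ univ.erase z, ∑ l', e x l' := by
        rw [← hF, ← add_sum_erase univ _ (mem_univ z)]
      rw [h3, h4]
      simp only [hf, sum_sub_distrib, sum_const, card_univ, Fintype.card_fin, nsmul_eq_mul]
      ring
    choose w hw using fun l' => hz l l'
    have h5 : ∃ W : ℤ, (M : ℚ) * ∑ x ∈ univ.erase z, ∑ l', (e x (κ x) - e x l') = W := by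
      choose! w' hw' using h1
      refine ⟨∑ x ∈ univ.erase z, ∑ l', w' x l', ?_⟩
      push_cast
      rw [mul_sum]
      refine sum_congr rfl fun x hx => ?_
      rw [mul_sum]
      exact sum_congr rfl fun l' _ => hw' x hx l'
    obtain ⟨W, hW⟩ := h5
    refine ⟨p * M * F + M * ∑ l', w l' + p * W, ?_⟩
    have h6 : ((p * (M * n) : ℕ) : ℚ) * f l = p * M * (n * f l) := by push_cast; ring
    rw [h6, h2]
    have h7 : (p : ℚ) * ∑ l', (e z l - e z l') = ∑ l', (w l' : ℚ) := by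
      rw [mul_sum]; exact sum_congr rfl fun l' _ => hw l'
    push_cast
    calc (p : ℚ) * M * (F + ∑ l', (e z l - e z l') + ∑ x ∈ univ.erase z, ∑ l', (e x (κ x) - e x l'))
        = p * M * F + M * (p * ∑ l', (e z l - e z l')) +
          p * (M * ∑ x ∈ univ.erase z, ∑ l', (e x (κ x) - e x l')) := by ring
      _ = _ := by rw [h7, hW]
  -- hence `p N' f` is an integer
  have hden : ∀ {q : ℕ} {x : ℚ}, (∃ w : ℤ, (q : ℚ) * x = w) → x.den ∣ q := by
    intro q x h
    obtain ⟨w, hw⟩ := h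
    have h1 : (q : ℚ) * x.num = w * x.den := by
      rw [← hw]
      have := Rat.mul_den_eq_num x
      rw [mul_assoc, this]
    have h2 : (q : ℤ) * x.num = w * x.den := by exact_mod_cast h1
    have h3 : (x.den : ℤ) ∣ q * x.num := ⟨w, by rw [h2]; ring⟩
    have h4 : IsCoprime (x.den : ℤ) x.num := by
      rw [Int.isCoprime_iff_gcd_eq_one, Int.gcd_comm]
      exact x.reduced
    exact Int.natCast_dvd_natCast.1 (h4.dvd_of_dvd_mul_right h3)
  have hint : ∀ {q : ℕ} {x : ℚ}, x.den ∣ q → ∃ w : ℤ, (q : ℚ) * x = w := by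
    intro q x h
    obtain ⟨c, hc⟩ := h
    refine ⟨c * x.num, ?_⟩
    have := Rat.mul_den_eq_num x
    rw [hc]
    push_cast
    rw [← this]
    ring
  have hpN'f : ∀ l, ∃ w : ℤ, ((p * N' : ℕ) : ℚ) * f l = w := by
    intro l
    apply hint
    have h1 := hden (hNf l)
    have h2 := hden (hpMn l)
    rw [hNN] at h1
    obtain ⟨i, d', hpd', hd⟩ := Nat.exists_eq_pow_mul_and_not_dvd (f l).den_ne_zero p hp.ne_one
    have hcop : Nat.Coprime (p ^ v) d' := (Nat.Prime.coprime_pow_of_not_dvd hp hpd').symm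
    have hd'N : d' ∣ N' := by
      have h3 : d' ∣ p ^ v * N' := (Dvd.intro_left _ hd.symm).trans h1
      exact Nat.Coprime.dvd_of_dvd_mul_left hcop.symm h3
    have hi : i ≤ 1 := by
      by_contra hcon
      push Not at hcon
      have h4 : p ^ 2 ∣ p * (M * n) := by
        have h5 : p ^ 2 ∣ p ^ i := pow_dvd_pow p hcon
        exact (h5.trans (Dvd.intro _ hd.symm)).trans h2
      rw [pow_two] at h4
      have h6 : p ∣ M * n := Nat.dvd_of_mul_dvd_mul_left hp.pos h4
      rcases (hp.dvd_mul).1 h6 with h7 | h7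
      · exact hpM h7
      · have := Nat.le_of_dvd (by omega) h7
        omega
    rw [hd]
    exact Nat.mul_dvd_mul ((pow_dvd_pow p hi).trans (by rw [pow_one])) hd'N
  -- choice of the exponent
  have hcopN : IsCoprime (N' : ℤ) (p : ℤ) := by
    rw [Nat.isCoprime_iff_coprime]
    exact ((Nat.Prime.coprime_iff_not_dvd hp).2 hpN').symm
  obtain ⟨u', v', huv⟩ := hcopN
  have huvq : (u' : ℚ) * N' + v' * p = 1 := by exact_mod_cast huv
  obtain ⟨k, hkμ, hkN⟩ : ∃ k : Fin n, μ ≤ mult (e z) k ∧ ¬ ∃ w : ℤ, (N' : ℚ) * f k = w := by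
    by_contra hcon
    push Not at hcon
    have h1 := hcon k₁ hμ1
    have h2 := hcon k₂ hμ2
    apply hk
    obtain ⟨w1, h1⟩ := h1
    obtain ⟨w2, h2⟩ := h2
    obtain ⟨w3, h3⟩ := hz k₁ k₂
    apply den_one_of
    refine ⟨u' * (w1 - w2) + v' * w3, ?_⟩
    push_cast
    rw [← h1, ← h2, ← h3, ← hfd]
    linear_combination (-(f k₁ - f k₂)) * huvq
  obtain ⟨C, hC⟩ := hpN'f k
  push_cast at hC
  -- `f k = c / p + g`
  set c : ℤ := C * u' with hc
  set g : ℚ := (C * v' : ℤ) / N' with hg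
  have hN'q : (N' : ℚ) ≠ 0 := by exact_mod_cast hN'0.ne'
  have hfk : f k = c / p + g := by
    rw [hc, hg]
    push_cast
    have : f k = C / (p * N') := by
      rw [eq_div_iff (by positivity), ← hC]; ring
    rw [this]
    field_simp
    linear_combination (-(C : ℚ)) * huvq
  have hcp : ¬ (p : ℤ) ∣ c := by
    rintro ⟨w, hw⟩
    apply hkN
    refine ⟨N' * w + C * v', ?_⟩
    rw [hfk, hw, hg]
    push_cast
    field_simp
  have hcop : IsCoprime c (p : ℤ) := by
    rw [isCoprime_comm]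
    exact (Prime.coprime_iff_not_dvd (Nat.prime_iff_prime_int.1 hp)).2 hcp
  obtain ⟨ci, cj, hcc⟩ := hcop
  -- the multiplier modulo `N' M`
  obtain ⟨a₀, ha₀, haM⟩ := exists_lift (q := M) (N := N' * M) (Nat.mul_pos hN'0 hM0)
    (dvd_mul_left _ _) a ha
  obtain ⟨t, ht, htle⟩ := two_fract hp3 hodd (Int.fract ((a₀ : ℚ) * g)) (Int.fract_nonneg _)
    (Int.fract_lt_one _)
  have hNMp : IsCoprime ((N' * M : ℕ) : ℤ) (p : ℤ) := by
    rw [Nat.isCoprime_iff_coprime]
    refine ((Nat.Prime.coprime_iff_not_dvd hp).2 ?_).symm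
    intro h
    rcases (hp.dvd_mul).1 h with h | h
    · exact hpN' h
    · exact hpM h
  obtain ⟨r, s, hrs⟩ := hNMp
  -- for all `t` prime to `p` there is a multiplier
  have key : ∀ t : ℤ, IsCoprime t (p : ℤ) → ∃ b : ℤ, IsCoprime b (N : ℤ) ∧
      ((N' * M : ℕ) : ℤ) ∣ b - a₀ ∧ (p : ℤ) ∣ b * c - t := by
    intro t ht
    refine ⟨a₀ + (N' * M : ℕ) * (r * (t * ci - a₀)), ?_, ⟨r * (t * ci - a₀), by ring⟩, ?_⟩
    · rw [hNN]
      push_cast
      have hbp : IsCoprime (a₀ + (N' * M : ℕ) * (r * (t * ci - a₀))) (p : ℤ) := by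
        have h1 : a₀ + (N' * M : ℕ) * (r * (t * ci - a₀)) = t * ci + p * (-(s * (t * ci - a₀))) := by
          linear_combination (t * ci - a₀) * hrs
        rw [h1]
        refine IsCoprime.add_mul_left_left (ht.mul_left ?_) _
        exact ⟨c, cj, by rw [← hcc]; ring⟩
      have hbN : IsCoprime (a₀ + (N' * M : ℕ) * (r * (t * ci - a₀))) ((N' * M : ℕ) : ℤ) :=
        IsCoprime.add_mul_left_left ha₀ _
      push_cast at hbp hbN
      exact IsCoprime.mul_right hbp.pow_right (IsCoprime.of_mul_right_left hbN)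
    · refine ⟨-(s * (t * ci - a₀)) * c - t * cj, ?_⟩
      linear_combination (t * ci - a₀) * c * hrs + t * hcc
  obtain ⟨b₁, hb1, hb1N, hb1p⟩ := key t ht
  obtain ⟨b₂, hb2, hb2N, hb2p⟩ := key (-t) ht.neg_left
  have g1 := G.cut z κ hb1
  have g2 := G.cut z κ hb2
  -- the sum over the other points
  have hsame : ∀ b : ℤ, ((N' * M : ℕ) : ℤ) ∣ b - a₀ →
      ∑ x ∈ univ.erase z, ∑ l, Int.fract ((b : ℚ) * (e x l - e x (κ x))) =
      ∑ x ∈ univ.erase z, ∑ l, Int.fract ((a : ℚ) * (e x l - e x (κ x))) := by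
    intro b hb
    refine sum_congr rfl fun x hx => sum_congr rfl fun l _ => fract_congr ?_
    refine mul_congr (M := M) ?_ (hMd x (ne_of_mem_erase hx) _ _)
    have h1 : (M : ℤ) ∣ b - a₀ := (Dvd.intro_left (N' : ℤ) (by push_cast; rfl)).trans hb
    have := dvd_add h1 haM
    rwa [sub_add_sub_cancel] at this
  rw [hsame b₁ hb1N] at g1
  rw [hsame b₂ hb2N] at g2
  -- the value at `k`
  have hval : ∀ (b t : ℤ), ((N' * M : ℕ) : ℤ) ∣ b - a₀ → (p : ℤ) ∣ b * c - t →
      Int.fract ((b : ℚ) * f k) = Int.fract ((t : ℚ) / p + Int.fract ((a₀ : ℚ) * g)) := by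
    intro b t hb hbp
    apply fract_congr
    have h1 : ∃ w : ℤ, (b : ℚ) * g - a₀ * g = w := by
      refine mul_congr (M := N') ?_ ⟨C * v', by rw [hg]; field_simp⟩
      exact (Dvd.intro (M : ℤ) (by push_cast; rfl)).trans hb
    obtain ⟨w1, hw1⟩ := h1
    obtain ⟨w2, hw2⟩ := hbp
    refine ⟨w1 + w2 + ⌊(a₀ : ℚ) * g⌋, ?_⟩
    have hw2' : (b : ℚ) * c - t = p * w2 := by exact_mod_cast hw2
    have h3 : Int.fract ((a₀ : ℚ) * g) = a₀ * g - ⌊(a₀ : ℚ) * g⌋ := rfl
    have h4 : (b : ℚ) * c / p - t / p = w2 := by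
      rw [← sub_div, hw2']; field_simp
    rw [h3, hfk]
    push_cast
    rw [← hw1, ← h4]
    ring
  have hsplit : ∀ b : ℤ, ∑ l, Int.fract ((b : ℚ) * f l) ≤
      ∑ l, Int.fract ((b : ℚ) * (f l - f k)) + n * Int.fract ((b : ℚ) * f k) := by
    intro b
    have h1 : ∑ _l : Fin n, Int.fract ((b : ℚ) * f k) = n * Int.fract ((b : ℚ) * f k) := by
      rw [sum_const, card_univ, Fintype.card_fin, nsmul_eq_mul]
    rw [← h1, ← sum_add_distrib]
    refine sum_le_sum fun l _ => ?_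
    have h2 : (b : ℚ) * f l = b * (f l - f k) + b * f k := by ring
    rw [h2]
    exact fract_add_le' _ _
  have hopp : ∑ l, Int.fract ((b₁ : ℚ) * (f l - f k)) + ∑ l, Int.fract ((b₂ : ℚ) * (f l - f k)) ≤
      n - μ := by
    rw [← sum_add_distrib]
    have h1 : ∀ l, Int.fract ((b₁ : ℚ) * (f l - f k)) + Int.fract ((b₂ : ℚ) * (f l - f k)) ≤
        if (e z l - e z k).den = 1 then 0 else 1 := by
      intro l
      rw [hfd]
      split_ifs with h
      · obtain ⟨w, hw⟩ := int_of_den h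
        rw [hw]
        have e1 : ((b₁ : ℚ) * w) = ((b₁ * w : ℤ) : ℚ) := by push_cast; rfl
        have e2 : ((b₂ : ℚ) * w) = ((b₂ * w : ℤ) : ℚ) := by push_cast; rfl
        rw [e1, e2, Int.fract_intCast, Int.fract_intCast, add_zero]
      · apply fract_add_int
        obtain ⟨w, hw⟩ := hz l k
        have hdv : (p : ℤ) ∣ b₁ + b₂ := by
          have h3 : (p : ℤ) ∣ (b₁ + b₂) * c := by
            have := dvd_add hb1p hb2p
            have h4 : b₁ * c - t + (b₂ * c - -t) = (b₁ + b₂) * c := by ring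
            rwa [h4] at this
          exact IsCoprime.dvd_of_dvd_mul_right ⟨cj, ci, by rw [← hcc]; ring⟩ h3
        obtain ⟨w', hw'⟩ := hdv
        refine ⟨w' * w, ?_⟩
        have h5 : (b₁ : ℚ) + b₂ = p * w' := by exact_mod_cast hw'
        rw [← add_mul, h5]
        push_cast
        rw [← hw]
        ring
    refine (sum_le_sum fun l _ => h1 l).trans ?_
    have h2 : ∑ l : Fin n, (if (e z l - e z k).den = 1 then (0 : ℚ) else 1) = n - mult (e z) k := by
      have h3 : ∀ l : Fin n, (if (e z l - e z k).den = 1 then (0 : ℚ) else 1) =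
          1 - if (e z l - e z k).den = 1 then (1 : ℚ) else 0 := by
        intro l; split_ifs <;> norm_num
      rw [sum_congr rfl fun l _ => h3 l, sum_sub_distrib, sum_const, card_univ, Fintype.card_fin,
        nsmul_eq_mul, mul_one, mult, sum_boole]
    rw [h2]
    have : (μ : ℚ) ≤ mult (e z) k := by exact_mod_cast hkμ
    linarith
  have v1 := hval b₁ t hb1N hb1p
  have v2 := hval b₂ (-t) hb2N hb2p
  have hh : Int.fract ((b₁ : ℚ) * f k) + Int.fract ((b₂ : ℚ) * f k) ≤ 1 + 2 / p := by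
    rw [v1, v2]
    push_cast
    rw [neg_div]
    exact htle
  have s1 := hsplit b₁
  have s2 := hsplit b₂
  have hn0 : (0 : ℚ) < n := by exact_mod_cast (by omega : 0 < n)
  have hnh := mul_le_mul_of_nonneg_left hh hn0.le
  have e3 : (n : ℚ) * (1 + 2 / p) = n + 2 * (n / p) := by ring
  rw [e3] at hnh
  simp only [← hE] at g1 g2
  change (n : ℚ) ≤ _ + ∑ l, Int.fract ((b₁ : ℚ) * f l) at g1
  change (n : ℚ) ≤ _ + ∑ l, Int.fract ((b₂ : ℚ) * f l) at g2
  linarith

end Pool.Agent.Helper84.PC
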