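import Pool.Agent.Helper84.PC.Core

set_option autoImplicit false

/-!
# Pairwise distinct primes at all the points
-/

namespace Pool.Agent.Helper84.PC

open Finset

lemma dirichlet {n : ℕ} (hn : 0 < n) (f : Fin n → ℚ) {Q : ℕ} (hQ : 2 ≤ Q) :
    ∃ a : ℕ, 1 ≤ a ∧ a ≤ Q ^ (n - 1) ∧ ∃ κ : Fin n, ∀ l, Int.fract ((a : ℚ) * (f l - f κ)) ≤ 2 / Q := by
  classical
  have hQ0 : (0 : ℚ) < Q := by exact_mod_cast (by omega : 0 < Q)
  have hQ2 : (2 : ℚ) ≤ Q := by exact_mod_cast hQ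
  obtain ⟨m, rfl⟩ : ∃ m, n = m + 1 := ⟨n - 1, by omega⟩
  simp only [Nat.add_sub_cancel]
  set d : Fin (m + 1) → ℚ := fun l => f l - f 0 with hd
  have hbox : ∀ (a : ℕ) (l : Fin m), ⌊(Q : ℚ) * Int.fract ((a : ℚ) * d l.succ)⌋₊ < Q := by
    intro a l
    have h1 : (Q : ℚ) * Int.fract ((a : ℚ) * d l.succ) < Q := by
      have := Int.fract_lt_one ((a : ℚ) * d l.succ)
      nlinarith
    exact (Nat.floor_lt (mul_nonneg hQ0.le (Int.fract_nonneg _))).2 h1
  let φ : ℕ → (Fin m → Fin Q) := fun a l => ⟨⌊(Q : ℚ) * Int.fract ((a : ℚ) * d l.succ)⌋₊, hbox a l⟩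
  obtain ⟨a₁, ha₁, a₂, ha₂, hne, heq⟩ := exists_ne_map_eq_of_card_lt_of_maps_to
    (s := range (Q ^ m + 1)) (t := (univ : Finset (Fin m → Fin Q))) (f := φ) (by
      rw [card_univ, card_range, Fintype.card_fun, Fintype.card_fin, Fintype.card_fin]
      omega) (fun _ _ => mem_univ _)
  wlog hlt : a₁ < a₂ generalizing a₁ a₂
  · exact this a₂ ha₂ a₁ ha₁ hne.symm heq.symm (by omega)
  rw [mem_range] at ha₂
  refine ⟨a₂ - a₁, by omega, by omega, ?_⟩
  set r : Fin (m + 1) → ℚ := fun l => Int.fract ((a₂ : ℚ) * d l) - Int.fract ((a₁ : ℚ) * d l) with hr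
  have hrl : ∀ l, |r l| ≤ 1 / Q := by
    intro l
    refine Fin.cases ?_ (fun l => ?_) l
    · simp only [hr, hd, sub_self, mul_zero, abs_zero]
      positivity
    · have h1 : ⌊(Q : ℚ) * Int.fract ((a₁ : ℚ) * d l.succ)⌋₊ = ⌊(Q : ℚ) * Int.fract ((a₂ : ℚ) * d l.succ)⌋₊ := by
        have := congrFun heq l
        exact congrArg Fin.val this
      have e1 := Nat.floor_le (mul_nonneg hQ0.le (Int.fract_nonneg ((a₁ : ℚ) * d l.succ)))
      have e2 := Nat.lt_floor_add_one ((Q : ℚ) * Int.fract ((a₁ : ℚ) * d l.succ))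
      have e3 := Nat.floor_le (mul_nonneg hQ0.le (Int.fract_nonneg ((a₂ : ℚ) * d l.succ)))
      have e4 := Nat.lt_floor_add_one ((Q : ℚ) * Int.fract ((a₂ : ℚ) * d l.succ))
      rw [h1] at e1 e2
      simp only [hr]
      have h9 : |(Int.fract ((a₂ : ℚ) * d l.succ) - Int.fract ((a₁ : ℚ) * d l.succ)) * Q| ≤ 1 := by
        rw [abs_le]
        constructor <;> nlinarith
      rw [abs_mul, abs_of_pos hQ0] at h9
      rw [le_div_iff₀ hQ0]
      exact h9
  obtain ⟨κ, -, hκ⟩ := exists_min_image (univ : Finset (Fin (m + 1))) r univ_nonempty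
  refine ⟨κ, fun l => ?_⟩
  have h1 : Int.fract (((a₂ - a₁ : ℕ) : ℚ) * (f l - f κ)) = Int.fract (r l - r κ) := by
    apply fract_congr
    refine ⟨⌊(a₂ : ℚ) * d l⌋ - ⌊(a₁ : ℚ) * d l⌋ - ⌊(a₂ : ℚ) * d κ⌋ + ⌊(a₁ : ℚ) * d κ⌋, ?_⟩
    have hf : ∀ y : ℚ, Int.fract y = y - ⌊y⌋ := fun y => rfl
    rw [Nat.cast_sub hlt.le]
    simp only [hr, hf]
    push_cast
    have : f l - f κ = d l - d κ := by simp [hd]
    rw [this]
    ring
  rw [h1]
  have h2 := hκ l (mem_univ l)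
  have h3 := (abs_le.1 (hrl l)).2
  have h4 := (abs_le.1 (hrl κ)).1
  have e2 : (2 : ℚ) / Q = 1 / Q + 1 / Q := by ring
  have h5 : r l - r κ ≤ 2 / Q := by rw [e2]; linarith
  have hQ1 : (2 : ℚ) / Q ≤ 1 := by rw [div_le_one hQ0]; exact hQ2
  rcases lt_or_ge (r l - r κ) 1 with h6 | h6
  · rw [Int.fract_eq_self.2 ⟨by linarith, h6⟩]
    exact h5
  · have : r l - r κ = 1 := by linarith
    rw [this, Int.fract_one]
    positivity

variable {ι : Type*} [Fintype ι] [DecidableEq ι] {n : ℕ}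

/-- The criterion with several points of private prime order. -/
theorem several {e : ι → Fin n → ℚ} {N : ℕ} (hN : 0 < N)
    (hNe : ∀ x l, ∃ w : ℤ, (N : ℚ) * e x l = w)
    {F : ℤ} (hF : ∑ x, ∑ l, e x l = F) (G : Ineq e N) (hn : 2 ≤ n) (z : ι) (S : Finset ι)
    (hzS : z ∉ S) (P Q : ι → ℕ) (hP : ∀ x ∈ insert z S, (P x).Prime)
    (hinj : Set.InjOn P (insert z S : Finset ι))
    (hd : ∀ x ∈ insert z S, ∀ l l', ∃ w : ℤ, (P x : ℚ) * (e x l - e x l') = w)
    (hpn : n < P z) (hQ : ∀ x ∈ S, 2 ≤ Q x ∧ Q x ^ (n - 1) < P x)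
    {k₁ k₂ : Fin n} (hk : (e z k₁ - e z k₂).den ≠ 1) {μ : ℕ} (hμ1 : μ ≤ mult (e z) k₁)
    (hμ2 : μ ≤ mult (e z) k₂) {M : ℕ} (hM0 : 0 < M) (hpM : ∀ x ∈ insert z S, ¬ P x ∣ M)
    (hMd : ∀ x, x ∉ insert z S → ∀ l l', ∃ w : ℤ, (M : ℚ) * (e x l - e x l') = w)
    (κ : ι → Fin n) (a : ℤ) (ha : IsCoprime a (M : ℤ)) :
    (μ : ℚ) / 2 ≤ ∑ x ∈ univ \ insert z S, ∑ l, Int.fract ((a : ℚ) * (e x l - e x (κ x))) +
      ∑ x ∈ S, 2 * n / (Q x : ℚ) + n / P z := by
  classical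
  have hn0 : 0 < n := by omega
  have hzi : z ∈ insert z S := mem_insert_self _ _
  have hSi : ∀ x ∈ S, x ∈ insert z S := fun x hx => mem_insert_of_mem hx
  have hchoice : ∀ x, ∃ A : ℕ, ∃ κ : Fin n, x ∈ S → 1 ≤ A ∧ A ≤ Q x ^ (n - 1) ∧
      ∀ l, Int.fract ((A : ℚ) * (e x l - e x κ)) ≤ 2 / Q x := by
    intro x
    by_cases hx : x ∈ S
    · obtain ⟨A, h1, h2, κ, h3⟩ := dirichlet hn0 (e x) (hQ x hx).1
      exact ⟨A, κ, fun _ => ⟨h1, h2, h3⟩⟩
    · exact ⟨0, ⟨0, hn0⟩, fun h => absurd h hx⟩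
  choose A κ' hA using hchoice
  have hcop : Set.Pairwise (S : Set ι) (Function.onFun Nat.Coprime P) := by
    intro x hx y hy hxy
    exact (Nat.coprime_primes (hP x (hSi x hx)) (hP y (hSi y hy))).2
      fun h => hxy (hinj (hSi x hx) (hSi y hy) h)
  obtain ⟨a₀, ha₀⟩ := Nat.chineseRemainderOfFinset A P S (fun x hx => (hP x (hSi x hx)).ne_zero) hcop
  set R : ℕ := ∏ x ∈ S, P x with hR
  have hR0 : 0 < R := prod_pos fun x hx => (hP x (hSi x hx)).pos
  have hRM : IsCoprime (R : ℤ) (M : ℤ) := by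
    rw [Nat.isCoprime_iff_coprime, hR]
    exact Nat.Coprime.prod_left fun x hx =>
      (Nat.Prime.coprime_iff_not_dvd (hP x (hSi x hx))).2 (hpM x (hSi x hx))
  obtain ⟨u, v, huv⟩ := hRM
  set a' : ℤ := a₀ * (v * M) + a * (u * R) with ha'
  have haR : (R : ℤ) ∣ a' - a₀ := ⟨u * (a - a₀), by rw [ha']; linear_combination (a₀ : ℤ) * huv⟩
  have haM : (M : ℤ) ∣ a' - a := ⟨v * (a₀ - a), by rw [ha']; linear_combination a * huv⟩
  have hcM : IsCoprime a' (M : ℤ) := by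
    obtain ⟨c, hc⟩ := haM
    have : a' = a + M * c := by linarith
    rw [this]
    exact IsCoprime.add_mul_left_left ha c
  have hPR : ∀ x ∈ S, (P x : ℤ) ∣ a' - A x := by
    intro x hx
    have h1 : (P x : ℤ) ∣ a₀ - A x := Nat.modEq_iff_dvd.1 (ha₀ x hx).symm
    have h2 : (P x : ℤ) ∣ R := by exact_mod_cast dvd_prod_of_mem P hx
    have h3 := dvd_add (h2.trans haR) h1
    rwa [sub_add_sub_cancel] at h3
  have hcR : IsCoprime a' (R : ℤ) := by
    rw [hR]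
    push_cast
    refine IsCoprime.prod_right fun x hx => ?_
    have h2 := hP x (hSi x hx)
    refine ((Prime.coprime_iff_not_dvd (Nat.prime_iff_prime_int.1 h2)).2 fun h3 => ?_).symm
    have h4 : (P x : ℤ) ∣ A x := by
      have := dvd_sub h3 (hPR x hx)
      rwa [sub_sub_cancel] at this
    have h5 := Nat.le_of_dvd ((hA x) hx).1 (Int.natCast_dvd_natCast.1 h4)
    have h6 := ((hA x) hx).2.1
    have h7 := (hQ x hx).2
    omega
  have hpM' : ¬ P z ∣ M * R := by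
    rw [Nat.Prime.dvd_mul (hP z hzi)]
    rintro (h | h)
    · exact hpM z hzi h
    · obtain ⟨x, hx, hdv⟩ := (Prime.dvd_finsetProd_iff (hP z hzi).prime _).1 h
      have h1 := (Nat.prime_dvd_prime_iff_eq (hP z hzi) (hP x (hSi x hx))).1 hdv
      have h2 := hinj (by exact_mod_cast hzi) (by exact_mod_cast hSi x hx) h1
      exact hzS (h2 ▸ hx)
  have hMd' : ∀ x, x ≠ z → ∀ l l', ∃ w : ℤ, ((M * R : ℕ) : ℚ) * (e x l - e x l') = w := by
    intro x hx l l'
    by_cases hxS : x ∈ S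
    · obtain ⟨c, hc⟩ := dvd_prod_of_mem P hxS
      obtain ⟨w, hw⟩ := hd x (hSi x hxS) l l'
      refine ⟨M * c * w, ?_⟩
      rw [hR, hc]
      push_cast
      rw [← hw]; ring
    · obtain ⟨w, hw⟩ := hMd x (by rw [mem_insert]; tauto) l l'
      refine ⟨R * w, ?_⟩
      push_cast
      rw [← hw]; ring
  have hmain := core hN hNe hF G z (hP z hzi) hn hpn (hd z hzi) hk hμ1 hμ2 (Nat.mul_pos hM0 hR0)
    hpM' hMd' (fun x => if x ∈ S then κ' x else κ x) a' (by push_cast; exact hcM.mul_right hcR)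
  refine hmain.trans (add_le_add_left ?_ _)
  have hsplit : univ.erase z = (univ \ insert z S) ∪ S := by
    ext x
    simp only [mem_erase, mem_univ, and_true, mem_union, mem_sdiff, true_and, mem_insert, not_or]
    constructor
    · intro h
      by_cases hx : x ∈ S
      · exact Or.inr hx
      · exact Or.inl ⟨h, hx⟩
    · rintro (h | h)
      · exact h.1
      · rintro rfl; exact hzS h
  have hdis : Disjoint (univ \ insert z S) S := by
    rw [disjoint_left]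
    intro x hx hx'
    exact (mem_sdiff.1 hx).2 (hSi x hx')
  rw [hsplit, sum_union hdis]
  refine add_le_add (le_of_eq (sum_congr rfl fun x hx => sum_congr rfl fun l _ => ?_))
    (sum_le_sum fun x hx => ?_)
  · have hxi := (mem_sdiff.1 hx).2
    rw [if_neg fun h => hxi (hSi x h)]
    exact fract_congr (mul_congr haM (hMd x hxi _ _))
  · have h1 : ∀ l, Int.fract ((a' : ℚ) * (e x l - e x (if x ∈ S then κ' x else κ x))) ≤ 2 / Q x := by
      intro l
      rw [if_pos hx]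
      have h2 : Int.fract ((a' : ℚ) * (e x l - e x (κ' x))) =
          Int.fract (((A x : ℤ) : ℚ) * (e x l - e x (κ' x))) :=
        fract_congr (mul_congr (hPR x hx) (hd x (hSi x hx) _ _))
      rw [h2]
      have := ((hA x) hx).2.2 l
      push_cast at this ⊢
      exact this
    refine (sum_le_sum fun l _ => h1 l).trans (le_of_eq ?_)
    rw [sum_const, card_univ, Fintype.card_fin, nsmul_eq_mul]
    ring

end Pool.Agent.Helper84.PC
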