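import Pool.Agent.Helper84.PC.Distinct
import Pool.Agent.R340.SG.OpLine

set_option autoImplicit false

/-!
# From stable parabolic bundles to the inequalities for line subbundles with arbitrary base points
-/

namespace Pool.Agent.Helper84.PC

open Finset Polynomial Pool.Agent.W432.WB Pool.Agent.W432.HK Pool.Agent.Y227.SO Pool.Agent.Y227.SS
open Pool.Agent.R340.SY Pool.Agent.R340.MI Pool.Agent.R340.SG

variable {m n N : ℕ} {b : Fin (n + 1) → ℤ[X]} {α : Fin m → AlgebraicClosure ℚ}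
  {lam : Fin m → Fin n → ℚ} {phi : Fin n → ℚ}

lemma expo_int (hN : CommonDen lam phi N) (x : Option (Fin m)) (l : Fin n) :
    ∃ w : ℤ, (N : ℚ) * expo lam phi x l = w := by
  obtain ⟨-, h1, h2⟩ := hN
  cases x with
  | some j => exact h1 j l
  | none =>
    obtain ⟨w, hw⟩ := h2 l
    refine ⟨-w, ?_⟩
    show (N : ℚ) * (-phi l) = _
    push_cast
    rw [← hw]; ring

lemma expo_sum {F : ℤ} (hF : ∑ j, ∑ l, lam j l = ∑ l, phi l + F) :
    ∑ x, ∑ l, expo lam phi x l = F := by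
  rw [Fintype.sum_option]
  simp only [expo, sum_neg_distrib, hF]
  ring

/-- The inequalities for line subbundles, if there is no bad class of primes. -/
theorem ineq_of_not_bad (hm : 1 ≤ m) (hn : 2 ≤ n) (hF : FuchsianWith b α lam phi)
    (hirr : ¬ Reducible b) (hN : CommonDen lam phi N) (hbad : ¬ BadClass b N) :
    (∃ F : ℤ, ∑ x, ∑ l, expo lam phi x l = F) ∧ Ineq (expo lam phi) N := by
  classical
  have hst := fun a : ℤ => fun ha : IsCoprime a (N : ℤ) => op_stable hm hn hF hirr hN hbad a ha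
  obtain ⟨F, hFs⟩ := weights_sum hst
  refine ⟨⟨F, expo_sum hFs⟩, fun a ha β s hβ => ?_⟩
  set q : ℕ := ∏ x, (β x).den with hq
  have hq0 : 0 < q := prod_pos fun x _ => (β x).den_pos
  obtain ⟨a₂, ha₂, hdv⟩ := PC.exists_lift (q := N) (N := q * N) (Nat.mul_pos hq0 hN.1)
    (dvd_mul_left _ _) a ha
  push_cast at ha₂
  have haN : IsCoprime a₂ (N : ℤ) := IsCoprime.of_mul_right_right ha₂
  obtain ⟨u, v, huv⟩ := IsCoprime.of_mul_right_left ha₂
  have h1 := fract_ge hn a₂ F (u * s) hFs (fun x => u * β x) (by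
    rw [← mul_sum, hβ]; push_cast; ring) (hst a₂ haN)
  refine h1.trans (le_of_eq (sum_congr rfl fun x _ => sum_congr rfl fun l _ => fract_congr ?_))
  obtain ⟨w1, hw1⟩ := mul_congr hdv (expo_int hN x l)
  have hqβ : ∃ w : ℤ, (q : ℚ) * β x = w := by
    obtain ⟨c, hc⟩ := dvd_prod_of_mem (fun x => (β x).den) (mem_univ x)
    refine ⟨c * (β x).num, ?_⟩
    have h2 := Rat.mul_den_eq_num (β x)
    have h3 : (q : ℚ) = (β x).den * c := by rw [hq]; exact_mod_cast hc
    rw [h3]
    push_cast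
    rw [← h2]
    ring
  obtain ⟨w2, hw2⟩ := hqβ
  refine ⟨w1 + v * w2, ?_⟩
  push_cast
  rw [← hw1, ← hw2]
  have huv' : (u : ℚ) * a₂ + v * q = 1 := by exact_mod_cast huv
  linear_combination (-β x) * huv'

/-- from bad classes to the conjecture -/
theorem conj_of_bad (h : ∀ N, CommonDen lam phi N → BadClass b N) :
    (∀ N, CommonDen lam phi N → BadClass b N) ∧ (Cond b → FullAlg b) := by
  refine ⟨h, fun hc => ?_⟩
  obtain ⟨N, hN⟩ := exists_commonDen lam phi
  obtain ⟨a, ha, P₀, hP₀⟩ := h N hN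
  obtain ⟨p, hp1, hp2, hp3, hp4⟩ := cond_infinite hc hN.1 ha P₀
  exact absurd hp4 (hP₀ p hp1 hp2 hp3)

end Pool.Agent.Helper84.PC
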